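import Mathlib
import Pool.Agent.H34.Cech

namespace Pool.Agent.Results.MP_117f64_co.Null
open Pool.Agent.H34.CechDefs

/-- For `n ≥ 1` and `r ≥ 0` the inclusion `N(I_n, r) ↪ N(I_n, r + 1)` is null-homotopic. -/
theorem result (n r : ℕ) (hn : 1 ≤ n) : ∃ h : realization n r ⊆ realization n (r + 1),
    (ContinuousMap.inclusion h).Nullhomotopic :=
  Pool.Agent.H34.Cech.main hn

end Pool.Agent.Results.MP_117f64_co.Null
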